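import Mathlib

/-! # A group with finite double centralizers that is not perfectly supportable

The group is the extraspecial-type group `W × W* × F₂`, where `W` is the vector space of countable
dimension over `F₂`, `W*` its full dual, and
`(v, f, z) (v', f', z') = (v + v', f + f', z + z' + f v')`. -/

namespace Pool.Agent.Results.MP_5e2b9f_al.HeisenbergCounterexample

section defs
variable {S : Type*} [Semigroup S]

/-- the centralizer `C(T)` of a subset `T` -/
def cent (T : Set S) : Set S := {g | ∀ f ∈ T, f * g = g * f}

variable (S) in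
/-- `C(C(F))` is finite for every finite subset `F` -/
def FiniteDoubleCentralizers : Prop := ∀ F : Set S, F.Finite → (cent (cent F)).Finite

variable {X : Type*}

/-- `supp` is a support map -/
def IsSupportMap (supp : S → Set X) : Prop :=
  (∀ f g : S, supp (f * g) ⊆ supp f ∪ supp g) ∧
  ∀ f g : S, supp f ∩ supp g = ∅ → f * g = g * f

/-- the union of all supports -/
def totalSupport (supp : S → Set X) : Set X := ⋃ f : S, supp f

/-- the elements with support contained in `A` -/
def supportedIn (supp : S → Set X) (A : Set X) : Set S := {f | supp f ⊆ A}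

/-- the pair `(S, supp)` is supp-perfect -/
def SuppPerfect (supp : S → Set X) : Prop :=
  (∀ f : S, (supp f).Finite) ∧
  (∀ F : Set X, F ⊆ totalSupport supp → F.Finite → (supportedIn supp F).Finite) ∧
  ∀ F : Set X, F ⊆ totalSupport supp → F.Finite →
    supportedIn supp F = cent (supportedIn supp (totalSupport supp \ F))

end defs

/-- the vector space of countable dimension over the field with two elements -/
abbrev W : Type := ℕ →₀ ZMod 2

/-- The Heisenberg type group `W × W* × F₂`. -/
@[ext] structure E : Type where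
  v : W
  f : Module.Dual (ZMod 2) W
  z : ZMod 2

namespace E

noncomputable section

instance : Mul E := ⟨fun x y => ⟨x.v + y.v, x.f + y.f, x.z + y.z + x.f y.v⟩⟩
instance : One E := ⟨⟨0, 0, 0⟩⟩
instance : Inv E := ⟨fun x => ⟨-x.v, -x.f, -x.z + x.f x.v⟩⟩

@[simp] theorem mul_v (x y : E) : (x * y).v = x.v + y.v := rfl
@[simp] theorem mul_f (x y : E) : (x * y).f = x.f + y.f := rfl
@[simp] theorem mul_z (x y : E) : (x * y).z = x.z + y.z + x.f y.v := rfl
@[simp] theorem one_v : (1 : E).v = 0 := rfl
@[simp] theorem one_f : (1 : E).f = 0 := rfl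
@[simp] theorem one_z : (1 : E).z = 0 := rfl
@[simp] theorem inv_v (x : E) : (x⁻¹).v = -x.v := rfl
@[simp] theorem inv_f (x : E) : (x⁻¹).f = -x.f := rfl
@[simp] theorem inv_z (x : E) : (x⁻¹).z = -x.z + x.f x.v := rfl

instance : Group E where
  mul_assoc x y w := by
    ext1
    · simp [add_assoc]
    · simp [add_assoc]
    · simp only [mul_z, mul_v, mul_f, map_add, LinearMap.add_apply]; ring
  one_mul x := by ext1 <;> simp
  mul_one x := by ext1 <;> simp
  inv_mul_cancel x := by
    ext1
    · simp
    · simp
    · simp only [mul_z, inv_z, inv_f, LinearMap.neg_apply, one_z]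
      ring

theorem comm_iff (x y : E) : x * y = y * x ↔ x.f y.v = y.f x.v := by
  constructor
  · intro h
    have := congrArg E.z h
    simp only [mul_z] at this
    linear_combination this
  · intro h
    ext1
    · simp [add_comm]
    · simp [add_comm]
    · simp only [mul_z]
      linear_combination h

/-- the functional `(w, g) ↦ f w - g v` attached to `x = (v, f, z)` -/
def L (x : E) : (W × Module.Dual (ZMod 2) W) →ₗ[ZMod 2] ZMod 2 :=
  x.f ∘ₗ LinearMap.fst _ _ _ - (Module.Dual.eval (ZMod 2) W x.v) ∘ₗ LinearMap.snd _ _ _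

theorem L_apply (x : E) (w : W) (g : Module.Dual (ZMod 2) W) : L x (w, g) = x.f w - g x.v := rfl

theorem comm_iff' (x y : E) : x * y = y * x ↔ L x (y.v, y.f) = 0 := by
  rw [comm_iff, L_apply, sub_eq_zero]

theorem finiteDoubleCentralizers : FiniteDoubleCentralizers E := by
  intro F hF
  have : Finite F := hF
  let Sp : Submodule (ZMod 2) ((W × Module.Dual (ZMod 2) W) →ₗ[ZMod 2] ZMod 2) :=
    Submodule.span (ZMod 2) (Set.range (fun x : F => L x))
  have : Module.Finite (ZMod 2) Sp := FiniteDimensional.span_of_finite _ (Set.finite_range _)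
  have hfin : Finite Sp := Module.finite_of_finite (ZMod 2)
  have hfin' : ((Sp : Set ((W × Module.Dual (ZMod 2) W) →ₗ[ZMod 2] ZMod 2)) ×ˢ
      (Set.univ : Set (ZMod 2))).Finite :=
    Set.Finite.prod (Set.toFinite _) (Set.toFinite _)
  refine Set.Finite.of_finite_image (f := fun y : E => (L y, y.z)) (hfin'.subset ?_) ?_
  · rintro _ ⟨y, hy, rfl⟩
    refine ⟨?_, trivial⟩
    apply mem_span_of_iInf_ker_le_ker
    rintro ⟨w, g⟩ h
    rw [Submodule.mem_iInf] at h
    rw [LinearMap.mem_ker]
    have h1 : (⟨w, g, 0⟩ : E) ∈ cent F := by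
      intro x hx
      rw [comm_iff']
      exact h ⟨x, hx⟩
    have h2 := hy _ h1
    exact (comm_iff' y _).mp h2.symm
  · intro x _ y _ hxy
    simp only [Prod.mk.injEq] at hxy
    obtain ⟨h1, h2⟩ := hxy
    refine E.ext ?_ ?_ h2
    · rw [← sub_eq_zero, ← Module.forall_dual_apply_eq_zero_iff (ZMod 2)]
      intro g
      have h3 := LinearMap.congr_fun h1 (0, g)
      rw [L_apply, L_apply, map_zero, map_zero] at h3
      rw [map_sub]
      linear_combination -h3
    · refine LinearMap.ext fun w => ?_
      have h3 := LinearMap.congr_fun h1 (w, 0)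
      rw [L_apply, L_apply] at h3
      simpa using h3

theorem not_countable : ¬ (Set.univ : Set E).Countable := by
  intro h
  have h1 : Function.Injective (fun s : Set ℕ => (⟨0, Finsupp.linearCombination (ZMod 2)
      (fun n => s.indicator (fun _ => (1 : ZMod 2)) n), 0⟩ : E)) := by
    intro s t hst
    have h2 := congrArg E.f hst
    simp only at h2
    ext n
    have h3 := LinearMap.congr_fun h2 (Finsupp.single n 1)
    simp only [Finsupp.linearCombination_single, smul_eq_mul, one_mul] at h3
    by_cases hs : n ∈ s <;> by_cases ht : n ∈ t <;> simp_all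
  have h4 : Countable (Set ℕ) := by
    have : Countable E := Set.countable_univ_iff.mp h
    exact h1.countable
  obtain ⟨g, hg⟩ := exists_injective_nat (Set ℕ)
  exact Function.cantor_injective g hg

/-- A set of elements whose functional parts are prescribed on a set with finite annihilator by
the vector parts is countable. -/
theorem countable_of_determined (R : Set W)
    (hR : {u : Module.Dual (ZMod 2) W | ∀ w ∈ R, u w = 0}.Finite)
    (c : W → W → ZMod 2) (V : Set E) (hV : ∀ x ∈ V, ∀ w ∈ R, x.f w = c w x.v) : V.Countable := by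
  have h1 : V = ⋃ p : W × ZMod 2, {x ∈ V | x.v = p.1 ∧ x.z = p.2} := by
    ext x
    simp
  rw [h1]
  apply Set.countable_iUnion
  rintro ⟨w0, z0⟩
  rcases Set.eq_empty_or_nonempty {x ∈ V | x.v = w0 ∧ x.z = z0} with h | ⟨y, hy, hyv, hyz⟩
  · simp only [h, Set.countable_empty]
  · refine (hR.image (fun u => (⟨w0, y.f + u, z0⟩ : E))).countable.mono ?_
    rintro x ⟨hx, hxv, hxz⟩
    refine ⟨x.f - y.f, ?_, ?_⟩
    · intro w hw
      rw [LinearMap.sub_apply, hV x hx w hw, hV y hy w hw, hxv, hyv, sub_self]
    · ext1
      · exact hxv.symm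
      · simp
      · exact hxz.symm

theorem not_suppPerfect {X : Type*} (supp : E → Set X) (h1 : IsSupportMap supp) :
    ¬ SuppPerfect supp := by
  rintro ⟨ha, hb, hc⟩
  -- the elements with support disjoint from `A`
  let T : Set X → Set E := fun A => supportedIn supp (totalSupport supp \ A)
  have hT : ∀ (A : Set X) (w : W), ∃ t : E, (∃ t' ∈ T A, t'.v = w) → (t ∈ T A ∧ t.v = w) := by
    intro A w
    by_cases h : ∃ t' ∈ T A, t'.v = w
    · obtain ⟨t, ht⟩ := h
      exact ⟨t, fun _ => ht⟩
    · exact ⟨1, fun h' => absurd h' h⟩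
  choose t ht using hT
  -- the closing off
  let step : Set X → Set X := fun Y => Y ∪ ⋃ A ∈ {A : Set X | A.Finite ∧ A ⊆ Y}, ⋃ w : W, supp (t A w)
  let Xn : ℕ → Set X := fun n => step^[n] ∅
  have hXs : ∀ n, Xn (n + 1) = step (Xn n) := fun n => Function.iterate_succ_apply' step n ∅
  have hXc : ∀ n, (Xn n).Countable := by
    intro n
    induction n with
    | zero => exact Set.countable_empty
    | succ n ih =>
      rw [hXs]
      refine ih.union (Set.Countable.biUnion (Set.countable_ofPred_finite_subset ih) ?_)
      intro A _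
      exact Set.countable_iUnion fun w => (ha _).countable
  have hXm : Monotone Xn := monotone_nat_of_le_succ fun n => by
    rw [hXs]; exact Set.subset_union_left
  have hXT : ∀ n, Xn n ⊆ totalSupport supp := by
    intro n
    induction n with
    | zero => exact Set.empty_subset _
    | succ n ih =>
      rw [hXs]
      refine Set.union_subset ih ?_
      refine Set.iUnion₂_subset fun A _ => Set.iUnion_subset fun w => ?_
      exact Set.subset_iUnion supp (t A w)
  let X0 : Set X := ⋃ n, Xn n
  have hX0c : X0.Countable := Set.countable_iUnion hXc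
  have hX0T : X0 ⊆ totalSupport supp := Set.iUnion_subset hXT
  have hfin : ∀ A : Set X, A.Finite → A ⊆ X0 → ∃ n, A ⊆ Xn n := by
    intro A hA
    induction A, hA using Set.Finite.induction_on with
    | empty => intro _; exact ⟨0, Set.empty_subset _⟩
    | insert hx _ ih =>
      intro h
      obtain ⟨n, hn⟩ := ih ((Set.subset_insert _ _).trans h)
      obtain ⟨m, hm⟩ := Set.mem_iUnion.mp (h (Set.mem_insert _ _))
      refine ⟨max n m, Set.insert_subset ?_ ?_⟩
      · exact hXm (le_max_right n m) hm
      · exact hn.trans (hXm (le_max_left n m))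
  have hX0s : ∀ A : Set X, A.Finite → A ⊆ X0 → ∀ w, supp (t A w) ⊆ X0 := by
    intro A hA hA0 w
    obtain ⟨n, hn⟩ := hfin A hA hA0
    refine subset_trans ?_ (Set.subset_iUnion Xn (n + 1))
    rw [hXs]
    refine subset_trans ?_ Set.subset_union_right
    refine subset_trans ?_ (Set.subset_biUnion_of_mem (show A ∈ {A : Set X | A.Finite ∧ A ⊆ Xn n} from
      ⟨hA, hn⟩))
    exact Set.subset_iUnion (fun w => supp (t A w)) w
  -- the pieces are countable
  have hV : ∀ A : Set X, A.Finite → A ⊆ X0 → {x : E | supp x ∩ X0 = A}.Countable := by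
    intro A hA hA0
    have hAT := hA0.trans hX0T
    refine countable_of_determined {w | ∃ t' ∈ T A, t'.v = w} ?_
      (fun w w' => (t A w).f w') _ ?_
    · have h2 : (cent (T A)).Finite := by
        have := hc A hAT hA
        rw [← this]
        exact hb A hAT hA
      refine Set.Finite.of_finite_image (f := fun u => (⟨0, u, 0⟩ : E)) (h2.subset ?_) ?_
      · rintro _ ⟨u, hu, rfl⟩
        intro s hs
        rw [comm_iff]
        simp only [map_zero]
        exact (hu s.v ⟨s, hs, rfl⟩).symm
      · intro u _ u' _ h
        exact congrArg E.f h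
    · intro x hx w hw
      obtain ⟨h3, h4⟩ := ht A w hw
      have h5 : supp x ∩ supp (t A w) = ∅ := by
        rw [Set.eq_empty_iff_forall_notMem]
        rintro y ⟨hy1, hy2⟩
        have h6 : y ∈ supp x ∩ X0 := ⟨hy1, hX0s A hA hA0 w hy2⟩
        rw [show supp x ∩ X0 = A from hx] at h6
        exact (h3 hy2).2 h6
      have h7 := (comm_iff _ _).mp (h1.2 _ _ h5)
      rw [h4] at h7
      exact h7
  apply not_countable
  have h8 : (Set.univ : Set E) = ⋃ A ∈ {A : Set X | A.Finite ∧ A ⊆ X0}, {x : E | supp x ∩ X0 = A} := by
    ext x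
    simp only [Set.mem_univ, true_iff]
    refine Set.mem_biUnion (x := supp x ∩ X0) ⟨(ha x).subset Set.inter_subset_left,
      Set.inter_subset_right⟩ rfl
  rw [h8]
  exact Set.Countable.biUnion (Set.countable_ofPred_finite_subset hX0c) fun A hA => hV A hA.1 hA.2

end

end E

/-- **Q1 and Q2 have negative answers**: there is a group with finite double centralizers which
admits no support map making it supp-perfect. -/
theorem result : ∃ (G : Type) (_ : Group G), FiniteDoubleCentralizers G ∧
    ∀ (X : Type*) (supp : G → Set X), IsSupportMap supp → ¬ SuppPerfect supp :=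
  ⟨E, inferInstance, E.finiteDoubleCentralizers, fun _ => E.not_suppPerfect⟩

end Pool.Agent.Results.MP_5e2b9f_al.HeisenbergCounterexample
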